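import Pool.Agent.Work.MP_db9399_trn_helper95.Env1

/-!
# MP_db9399, TSPLIT, block TRN, part (b): `Tsi` for `datX` gives `TsX` (helper79)
-/

set_option autoImplicit false
set_option linter.unusedSectionVars false

namespace Pool.Agent.Work.MP_db9399_trn.helper79

open Finset Classical
open Pool.Agent.Work.MP_db9399_all (nb)
open Pool.Agent.Work.MP_db9399_da
open Pool.Agent.Work.MP_db9399_xf
open Pool.Agent.Work.MP_db9399_iv
open Pool.Agent.Work.MP_db9399_ox (sdg)
open Pool.Agent.Work.MP_db9399_sg (nsd)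
open Pool.Agent.Work.MP_db9399_ts (Dat Env Kd Tsi cC cQ)
open Pool.Agent.Work.MP_db9399_trn.helper95
open Pool.Agent.Work.MP_db9399_clj.helper75 (OO blk nB eE Shr)

universe u

/-! ### the classes -/

theorem ec_inj : Function.Injective ec.{u} := by
  rintro (j | i | _) (j' | i' | _) h
  · have h' := congrArg Fin.val h
    have : j = j' := Fin.ext h'
    rw [this]
  · exfalso
    have h' := congrArg Fin.val h
    have h1 : (j : ℕ) = 3 + ((if i' then (1 : Fin 2) else 0 : Fin 2) : ℕ) := h'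
    omega
  · exfalso
    have h' := congrArg Fin.val h
    have h1 : (j : ℕ) = 5 := h'
    omega
  · exfalso
    have h' := congrArg Fin.val h
    have h1 : 3 + ((if i then (1 : Fin 2) else 0 : Fin 2) : ℕ) = (j' : ℕ) := h'
    omega
  · have h' := congrArg Fin.val h
    have h1 : 3 + ((if i then (1 : Fin 2) else 0 : Fin 2) : ℕ) =
      3 + ((if i' then (1 : Fin 2) else 0 : Fin 2) : ℕ) := h'
    cases i <;> cases i' <;> simp_all
  · exfalso
    have h' := congrArg Fin.val h
    have h1 : 3 + ((if i then (1 : Fin 2) else 0 : Fin 2) : ℕ) = 5 := h'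
    omega
  · exfalso
    have h' := congrArg Fin.val h
    have h1 : 5 = (j' : ℕ) := h'
    omega
  · exfalso
    have h' := congrArg Fin.val h
    have h1 : 5 = 3 + ((if i' then (1 : Fin 2) else 0 : Fin 2) : ℕ) := h'
    omega
  · rfl

theorem ec_surj (j : Fin 6) : ∃ κ : Cx.{u}, ec κ = j := by
  fin_cases j
  · exact ⟨Cx.C 0, rfl⟩
  · exact ⟨Cx.C 1, rfl⟩
  · exact ⟨Cx.C 2, rfl⟩
  · exact ⟨Cx.Q false, rfl⟩
  · exact ⟨Cx.Q true, rfl⟩
  · exact ⟨Cx.R, rfl⟩

theorem D6_ec (D : Cx.{u} → ℕ) (κ : Cx.{u}) : D6 D (ec κ) = D κ := by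
  unfold D6
  have h : (univ.filter fun κ' : Cx.{u} => ec κ' = ec κ) = {κ} := by
    ext κ'
    simp only [mem_filter, mem_univ, true_and, mem_singleton]
    exact ec_inj.eq_iff
  rw [h, sum_singleton]

theorem ec_C_iff (κ : Cx.{u}) (k : Fin 3) : ec κ = cC k ↔ κ = Cx.C k :=
  ⟨fun h => ec_inj (h.trans rfl), fun h => by rw [h]; rfl⟩

theorem cQ_eq (x : Fin 2) : cQ x = ec (Cx.Q (decide (x = 1)) : Cx.{u}) := by
  fin_cases x <;> rfl

theorem ec_Q_iff (κ : Cx.{u}) (x : Fin 2) : ec κ = cQ x ↔ κ = Cx.Q (decide (x = 1)) := by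
  rw [cQ_eq.{u}]
  exact ec_inj.eq_iff

theorem pt_if (x : Fin 2) (l : Bool) : x = (if l then 1 else 0) ↔ decide (x = 1) = l := by
  fin_cases x <;> cases l <;> simp

theorem mem_nsd {V I : Type u} [Fintype V] {nd : V → Option (I × Bool)} {i : I} {s : Bool}
    {v : V} : v ∈ nsd nd i s ↔ nd v = some (i, s) := by
  simp [nsd]

variable {V : Type u} {N J : ℕ}

/-! ### the relabelled pieces -/

theorem Bkx_rlb (G : SimpleGraph V) (X : XD V N J) (th : V → Fin 3) (pt : V → Fin 2)
    (sd : V → Bool) : Bkx G (rlb X th pt sd) = Bkx G X := by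
  have key : ∀ v w, (bulk G (rlb X th pt sd).P).Adj v w ↔ (bulk G X.P).Adj v w := by
    intro v w
    constructor
    · rintro ⟨h1, h2, h3, h4, h5⟩
      refine ⟨h1, h2, h3, h4, fun hB => ?_⟩
      have h6 := h5 hB
      have e1 : (rlb X th pt sd).P.sd v = X.P.sd v := if_pos hB
      have e2 : (rlb X th pt sd).P.sd w = X.P.sd w := by
        have h4' : X.P.pc v = X.P.pc w := h4
        have hB' : X.P.ty (X.P.pc v) = Ty.B := hB
        exact if_pos (by rw [← h4']; exact hB')
      rw [e1, e2] at h6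
      exact h6
    · rintro ⟨h1, h2, h3, h4, h5⟩
      refine ⟨h1, h2, h3, h4, fun hB => ?_⟩
      have h6 := h5 hB
      have hB' : X.P.ty (X.P.pc v) = Ty.B := hB
      have e1 : (rlb X th pt sd).P.sd v = X.P.sd v := if_pos hB'
      have e2 : (rlb X th pt sd).P.sd w = X.P.sd w := if_pos (by rw [← h4]; exact hB')
      rw [e1, e2]
      exact h6
  ext v w
  exact ⟨fun h => ⟨(key v w).1 h.1, h.2⟩, fun h => ⟨(key v w).2 h.1, h.2⟩⟩

theorem bx_side (X : XD V N J) (n : Fin N) (s s' : Bool) (h : X.P.ty n = Ty.B → s = s') :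
    bx X n s = bx X n s' := by
  cases hb : bx X n s with
  | none => rw [bx_none] at hb; exact ((bx_none X n s').2 hb).symm
  | some b =>
    rw [bx_some] at hb
    exact ((bx_some X n s' b).2 ⟨hb.1, fun h' => (hb.2 h').trans (h h')⟩).symm

theorem blx_rlb (X : XD V N J) (th : V → Fin 3) (pt : V → Fin 2) (sd : V → Bool) :
    @Eq (V → Option (BX X)) (blx (rlb X th pt sd)) (blx X) := by
  funext v
  by_cases hO : InO X v
  · have e1 : @Eq (Option (BX X)) (blx (rlb X th pt sd) v) none := if_pos hO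
    have e2 : blx X v = none := if_pos hO
    rw [e2]
    exact e1
  · have e1 : @Eq (Option (BX X)) (blx (rlb X th pt sd) v)
      (bx X (X.P.pc v) ((rlb X th pt sd).P.sd v)) := if_neg hO
    have e2 : blx X v = bx X (X.P.pc v) (X.P.sd v) := if_neg hO
    rw [e2]
    refine e1.trans (bx_side X _ _ _ fun hB => if_pos hB)

variable [Fintype V]

section A

variable {C g z θk θ' η a : ℝ} {M : ℕ} {S : Fin J → Scl} {G : SimpleGraph V} {d : ℕ}
  {X : XD V N J}

theorem ty_iff (T : Kd → Prop) {v : V} {b : BX X} (hb : blx X v = some b) :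
    (datX G d X).ty T v ↔ T ((datX G d X).kd b) := by
  constructor
  · rintro ⟨b', h1, h2⟩
    have h1' : blx X v = some b' := h1
    rw [hb] at h1'
    rw [Option.some.inj h1']
    exact h2
  · intro h
    exact ⟨b, hb, h⟩

theorem NB_iff {v : V} {b : BX X} (hb : blx X v = some b) :
    X.P.ty (X.P.pc v) ≠ Ty.K ↔ (X.P.ty (X.P.pc v) = Ty.N ∨ X.P.ty (X.P.pc v) = Ty.B) := by
  have h1 := ((blx_some X v b).1 hb).2.1
  have h2 := kd_cases X b
  rw [h1] at h2
  rcases h2 with h2 | h2 | h2 <;> rw [h2] <;> simp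

/-- the vertices where the class `κ` is forbidden -/
def fbd (X : XD V N J) (th : V → Fin 3) (pt : V → Fin 2) (κ : Cx.{u}) (v : V) : Prop :=
  (∃ j, κ = Cx.C j ∧ X.P.ty (X.P.pc v) = Ty.K ∧ th v = j) ∨
    ((X.P.ty (X.P.pc v) = Ty.N ∨ X.P.ty (X.P.pc v) = Ty.B) ∧ κ = Cx.Q (decide (pt v = 1)))

theorem al_iff (th : V → Fin 3) (pt : V → Fin 2) {v : V} {b : BX X} (hb : blx X v = some b)
    (κ : Cx.{u}) : (datX G d X).al th pt (ec κ) v ↔ ¬ fbd X th pt κ v := by
  have hp := ((blx_some X v b).1 hb).2.1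
  unfold Dat.al fbd
  rw [ty_iff _ hb, ty_iff _ hb]
  simp only [ne_eq, kd_K, ec_C_iff, ec_Q_iff, hp]
  have h3 := NB_iff hb
  rw [← h3]
  constructor
  · rintro ⟨h1, h2⟩ (⟨j, h4, h5, h6⟩ | ⟨h4, h5⟩)
    · rw [← h6] at h4
      exact h1 h5 h4
    · exact h2 h4 h5
  · intro h
    refine ⟨fun h5 h4 => h (Or.inl ⟨_, h4, h5, rfl⟩), fun h4 h5 => h (Or.inr ⟨h4, h5⟩)⟩

/-- the new sides -/
noncomputable def sd' (X : XD V N J) (sd : V → Bool) (v : V) : Bool :=
  if X.P.ty (X.P.pc v) = Ty.B then X.P.sd v else sd v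

/-- the new parts -/
noncomputable def pt' (X : XD V N J) (pt : V → Fin 2) (v : V) : Bool :=
  if X.P.ty (X.P.pc v) = Ty.N ∨ X.P.ty (X.P.pc v) = Ty.B then decide (pt v = 1) else false

theorem ndx_iff (th : V → Fin 3) (pt : V → Fin 2) (sd : V → Bool) (κ : Cx.{u}) (v : V)
    (n : Fin N) (l s : Bool) : ndx (rlb X th pt sd) κ v = some (⟨(n, l)⟩, s) ↔
      ¬ InO X v ∧ ¬ fbd X th pt κ v ∧ X.P.pc v = n ∧ pt' X pt v = l ∧ sd' X sd v = s := by
  by_cases h : InO X v ∨ fbd X th pt κ v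
  · have h' : InO X v ∨ (∃ j, κ = Cx.C j ∧ X.P.ty (X.P.pc v) = Ty.K ∧ th v = j) ∨
      ((X.P.ty (X.P.pc v) = Ty.N ∨ X.P.ty (X.P.pc v) = Ty.B) ∧
        κ = Cx.Q (decide (pt v = 1))) := h
    have e : ndx (rlb X th pt sd) κ v = none := if_pos h'
    rw [e]
    constructor
    · intro h1; exact absurd h1 (by simp)
    · rintro ⟨h1, h2, -⟩
      rcases h with h | h
      · exact absurd h h1
      · exact absurd h h2
  · have e : ndx (rlb X th pt sd) κ v = some (⟨(X.P.pc v, pt' X pt v)⟩, sd' X sd v) := if_neg h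
    rw [e, Option.some.injEq, Prod.mk.injEq]
    push Not at h
    constructor
    · rintro ⟨h1, h2⟩
      have h3 := congrArg ULift.down h1
      simp only [Prod.mk.injEq] at h3
      exact ⟨h.1, h.2, h3.1, h3.2, h2⟩
    · rintro ⟨-, -, h1, h2, h3⟩
      rw [h1, h2, h3]
      exact ⟨rfl, rfl⟩

theorem rp_iff (b b' : BX X) :
    (datX G d X).rp b' = (datX G d X).rp b ↔ b'.down.1.1 = b.down.1.1 := by
  have key : ∀ c : BX X, ((datX G d X).rp c).down.1 = (c.down.1.1, false) := by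
    intro c
    by_cases hB : X.P.ty c.down.1.1 = Ty.B
    · have e : (datX G d X).rp c = mkB X c.down.1.1 false c.down.2.1 (Or.inl hB) := dif_pos hB
      rw [e]
      rfl
    · have e : (datX G d X).rp c = c := dif_neg hB
      rw [e]
      rcases c.down.2.2 with h | h
      · exact absurd h hB
      · exact Prod.ext rfl h
  constructor
  · intro h
    have h1 := congrArg (fun c : BX X => c.down.1.1) h
    simp only [key] at h1
    exact h1
  · intro h
    refine BX_ext ?_
    rw [key, key, h]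

theorem nd_iff (th : V → Fin 3) (pt : V → Fin 2) (sd : V → Bool) (j : Fin 6) (v : V)
    (b : BX X) (x : Fin 2) (s : Bool) : (datX G d X).nd th pt sd j v = some ((b, x), s) ↔
      ∃ b', blx X v = some b' ∧ (datX G d X).al th pt j v ∧ (datX G d X).rp b' = b ∧
        (if (datX G d X).kd b' = Kd.K then 0 else pt v) = x ∧
        (if (datX G d X).kd b' = Kd.S then (datX G d X).sb b' else sd v) = s := by
  unfold Dat.nd
  rw [Option.bind_eq_some_iff]
  constructor
  · rintro ⟨b', h1, h2⟩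
    by_cases hal : (datX G d X).al th pt j v
    · rw [if_pos hal, Option.some.injEq, Prod.mk.injEq, Prod.mk.injEq] at h2
      exact ⟨b', h1, hal, h2.1.1, h2.1.2, h2.2⟩
    · rw [if_neg hal] at h2
      exact absurd h2 (by simp)
  · rintro ⟨b', h1, h2, h3, h4, h5⟩
    refine ⟨b', h1, ?_⟩
    rw [if_pos h2, h3, h4, h5]

/-- the nodes of the pieces -/
theorem nd_eq (h : PcD C g z θk θ' η a M S G d X) (th : V → Fin 3) (pt : V → Fin 2)
    (sd : V → Bool) (κ : Cx.{u}) (n : Fin N) (l s : Bool) (b : BX X) (hn : b.down.1.1 = n)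
    (hK : X.P.ty n = Ty.K → l = false) :
    nsd (ndx (rlb X th pt sd) κ) ⟨(n, l)⟩ s = nsd ((datX G d X).nd th pt sd (ec κ))
      ((datX G d X).rp b, if l then 1 else 0) s := by
  ext v
  rw [mem_nsd, mem_nsd, ndx_iff, nd_iff]
  have tyv : ∀ b' : BX X, blx X v = some b' → X.P.ty b'.down.1.1 = X.P.ty (X.P.pc v) := by
    intro b' hb'
    rw [((blx_some X v b').1 hb').2.1]
  have sdv : ∀ b' : BX X, blx X v = some b' →
      (if (datX G d X).kd b' = Kd.S then (datX G d X).sb b' else sd v) = sd' X sd v := by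
    intro b' hb'
    unfold sd'
    by_cases hB : X.P.ty (X.P.pc v) = Ty.B
    · rw [if_pos hB, if_pos ((kd_S G d X b').2 ((tyv b' hb').trans hB))]
      exact ((blx_some X v b').1 hb').2.2 hB
    · rw [if_neg hB, if_neg]
      intro h'
      exact hB ((tyv b' hb').symm.trans ((kd_S G d X b').1 h'))
  have ptv : ∀ b' : BX X, blx X v = some b' → b'.down.1.1 = n →
      ((if (datX G d X).kd b' = Kd.K then 0 else pt v) = (if l then (1 : Fin 2) else 0) ↔
        pt' X pt v = l) := by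
    intro b' hb' hn'
    unfold pt'
    by_cases hKv : X.P.ty (X.P.pc v) = Ty.K
    · have h1 : ¬ (X.P.ty (X.P.pc v) = Ty.N ∨ X.P.ty (X.P.pc v) = Ty.B) := by
        rw [hKv]; simp
      rw [if_neg h1, if_pos ((kd_K G d X b').2 ((tyv b' hb').trans hKv))]
      have h2 : l = false := hK (by rw [← hn', tyv b' hb']; exact hKv)
      rw [h2]
      simp
    · have h1 := (NB_iff hb').1 hKv
      rw [if_pos h1, if_neg, pt_if]
      intro h'
      exact hKv ((tyv b' hb').symm.trans ((kd_K G d X b').1 h'))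
  constructor
  · rintro ⟨h1, h2, h3, h4, h5⟩
    obtain ⟨b', hb'⟩ := blx_ex h h1
    have hbn : b'.down.1.1 = n := by rw [((blx_some X v b').1 hb').2.1, h3]
    refine ⟨b', hb', (al_iff th pt hb' κ).2 h2, (rp_iff b b').2 (by rw [hbn, hn]), ?_, ?_⟩
    · exact (ptv b' hb' hbn).2 h4
    · rw [sdv b' hb']; exact h5
  · rintro ⟨b', hb', h2, h3, h4, h5⟩
    have hbn : b'.down.1.1 = n := by rw [(rp_iff b b').1 h3, hn]
    refine ⟨((blx_some X v b').1 hb').1, (al_iff th pt hb' κ).1 h2, ?_, ?_, ?_⟩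
    · rw [← ((blx_some X v b').1 hb').2.1, hbn]
    · exact (ptv b' hb' hbn).1 h4
    · rw [← sdv b' hb']; exact h5

/-- the blocks of the nodes -/
theorem bo_eq (κ : Cx.{u}) (n : Fin N) (l s : Bool) (b : BX X) (hu : usd X κ n l)
    (hb : bx X n s = some b) :
    (datX G d X).bo (ec κ) (((datX G d X).rp b, if l then 1 else 0), s) = some b := by
  have hb' := (bx_some X n s b).1 hb
  have hrr : (datX G d X).rp ((datX G d X).rp b) = (datX G d X).rp b := by
    rw [rp_iff]
    by_cases hB : X.P.ty b.down.1.1 = Ty.B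
    · have e : (datX G d X).rp b = mkB X b.down.1.1 false b.down.2.1 (Or.inl hB) := dif_pos hB
      rw [e]
      rfl
    · have e : (datX G d X).rp b = b := dif_neg hB
      rw [e]
  have hpc : ((datX G d X).rp b).down.1.1 = n := by
    rw [← hb'.1]
    exact (rp_iff (G := G) (d := d) b _).1 hrr
  have hc : (datX G d X).rp ((datX G d X).rp b) = (datX G d X).rp b ∧
      ((datX G d X).kd ((datX G d X).rp b) = Kd.K → (if l then (1 : Fin 2) else 0) = 0) ∧
      ((datX G d X).kd ((datX G d X).rp b) ≠ Kd.K → ec κ ≠ cQ (if l then (1 : Fin 2) else 0)) := by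
    refine ⟨hrr, ?_, ?_⟩
    · intro h
      rw [kd_K, hpc] at h
      rcases hu with ⟨h1 | h1, -⟩ | ⟨-, -, h1⟩
      · rw [h] at h1; exact absurd h1 (by decide)
      · rw [h] at h1; exact absurd h1 (by decide)
      · rw [h1]; rfl
    · intro h h'
      rw [ne_eq, kd_K, hpc] at h
      rw [ec_Q_iff] at h'
      have h3 : decide ((if l then (1 : Fin 2) else 0) = 1) = l := (pt_if _ l).1 rfl
      rw [h3] at h'
      rcases hu with ⟨-, h1⟩ | ⟨h1, h2, -⟩
      · exact h1 h'
      · rcases kd_cases X b with h4 | h4 | h4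
        · rw [hb'.1] at h4; exact h h4
        · rw [hb'.1] at h4; exact h1 h4
        · rw [hb'.1] at h4; exact h2 h4
  unfold Dat.bo
  refine (if_pos hc).trans (congrArg some ?_)
  by_cases hB : X.P.ty n = Ty.B
  · have hB2 : X.P.ty b.down.1.1 = Ty.B := by rw [hb'.1]; exact hB
    have e : (datX G d X).rp b = mkB X b.down.1.1 false b.down.2.1 (Or.inl hB2) := dif_pos hB2
    have hS : (datX G d X).kd ((datX G d X).rp b) = Kd.S := by
      rw [kd_S, hpc]; exact hB
    have hs : (datX G d X).sb ((datX G d X).rp b) = false := by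
      rw [e]; rfl
    have hbs := hb'.2 hB
    cases s with
    | false =>
      refine (if_neg ?_).trans ?_
      · rintro ⟨-, h2⟩
        exact h2 hs
      · refine BX_ext ?_
        rw [e, mkB_down]
        exact Prod.ext rfl hbs.symm
    | true =>
      refine (if_pos ?_).trans ?_
      · refine ⟨hS, ?_⟩
        show (datX G d X).sb ((datX G d X).rp b) ≠ true
        rw [hs]; decide
      · have e2 : ((datX G d X).op ((datX G d X).rp b)).down.1 =
            (((datX G d X).rp b).down.1.1, !((datX G d X).rp b).down.1.2) :=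
          opx_B X _ (by rw [hpc]; exact hB)
        refine BX_ext ?_
        refine e2.trans ?_
        rw [e, mkB_down]
        exact Prod.ext rfl hbs.symm
  · have hS : (datX G d X).kd ((datX G d X).rp b) ≠ Kd.S := by
      rw [ne_eq, kd_S, hpc]; exact hB
    have e : (datX G d X).rp b = b := dif_neg (by rw [hb'.1]; exact hB)
    refine (if_neg ?_).trans e
    rintro ⟨h1, -⟩
    exact hS h1

end A

/-! ### shares -/

theorem shr_map {V B I I' : Type u} [Fintype V] {G Bk Bk' H : SimpleGraph V} {d : ℕ}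
    {bl bl' : V → Option B} {nd : V → Option (I × Bool)} {nd' : V → Option (I' × Bool)}
    {bo : I × Bool → Option B} {bo' : I' × Bool → Option B} {c t1 t2 t3 t4 t5 t6 K1 : ℝ}
    (h : Shr G Bk H d bl nd bo c t1 t2 t3 t4 t5 t6 K1) (hBk : Bk' = Bk) (hbl : bl' = bl)
    (hf : ∀ p b, bo' p = some b → ∃ q, bo q = some b ∧
      nsd nd' p.1 p.2 = nsd nd q.1 q.2) :
    Shr G Bk' H d bl' nd' bo' c t1 t2 t3 t4 t5 t6 K1 := by
  subst hBk
  subst hbl
  refine ⟨?_, h.f2, ?_, ?_, ?_, h.f6, h.f6', h.f7, h.f8⟩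
  · intro x hx p b hp
    obtain ⟨q, h1, h2⟩ := hf p b hp
    rw [h2]
    exact h.f1 x hx q b h1
  · intro p b hp
    obtain ⟨q, h1, h2⟩ := hf p b hp
    rw [h2]
    exact h.f3 q b h1
  · intro p q b b' hp hq
    obtain ⟨p', h1, h2⟩ := hf p b hp
    obtain ⟨q', h3, h4⟩ := hf q b' hq
    rw [h2, h4]
    exact h.f4 p' q' b b' h1 h3
  · intro p b hp
    obtain ⟨q, h1, h2⟩ := hf p b hp
    rw [h2]
    exact h.f5 q b h1

/-! ### the result -/

theorem mem_OO {V B : Type u} [Fintype V] {bl : V → Option B} {v : V} :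
    v ∈ OO bl ↔ bl v = none := by
  simp [OO]

theorem mem_OV {V : Type u} {N J : ℕ} [Fintype V] {X : XD V N J} {v : V} :
    v ∈ OV X ↔ InO X v := by
  simp [OV]

/-- a node side without vertices -/
theorem nsd_empty {V : Type u} {N J : ℕ} [Fintype V] (X : XD V N J) (th : V → Fin 3)
    (pt : V → Fin 2) (sd : V → Bool) (κ : Cx.{u}) (n : Fin N) (l s : Bool)
    (hE : ∀ v, ¬ InO X v → ¬ fbd X th pt κ v → X.P.pc v = n → pt' X pt v = l → False) :
    nsd (ndx (rlb X th pt sd) κ) ⟨(n, l)⟩ s = ∅ := by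
  refine eq_empty_of_forall_notMem fun v hv => ?_
  rw [mem_nsd, ndx_iff] at hv
  exact hE v hv.1 hv.2.1 hv.2.2.1 hv.2.2.2.1

theorem shr_aux {V : Type u} [Fintype V] {N J : ℕ} {C g z θk θ' η a : ℝ} {M : ℕ}
    {S : Fin J → Scl} {G : SimpleGraph V} {d : ℕ} {X : XD V N J}
    (h : PcD C g z θk θ' η a M S G d X) (th : V → Fin 3)
    (pt : V → Fin 2) (sd : V → Bool) (κ : Cx.{u}) (n : Fin N) (l s : Bool) (b : BX X)
    (hp : (if usd X κ n l then bx X n s else none) = some b) :
    ∃ q, (datX G d X).bo (ec κ) q = some b ∧ nsd (ndx (rlb X th pt sd) κ) ⟨(n, l)⟩ s =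
      nsd ((datX G d X).nd th pt sd (ec κ)) q.1 q.2 := by
  by_cases hu : usd X κ n l
  · rw [if_pos hu] at hp
    refine ⟨(((datX G d X).rp b, if l then 1 else 0), s), bo_eq κ n l s b hu hp, ?_⟩
    refine nd_eq h th pt sd κ n l s b ((bx_some X n s b).1 hp).1 ?_
    intro hK
    rcases hu with ⟨h1 | h1, -⟩ | ⟨-, -, h1⟩
    · rw [hK] at h1; exact absurd h1 (by decide)
    · rw [hK] at h1; exact absurd h1 (by decide)
    · exact h1
  · rw [if_neg hu] at hp
    exact absurd hp (by simp)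

theorem stmt_TRB : Stmt_TRB.{u} := by
  intro V _ N J C g z θk θ' η a M S G d X D c t ρ K1 CC th pt sd H Ex h hd hρ hCC T
  have hN : ∀ v, blx X v = none ↔ InO X v := blx_none h.P
  have hBk := Bkx_rlb G X th pt sd
  have hZ : ∀ v, v ∉ OV X → ((nb G v).filter fun w => ¬ (Bkx G X).Adj v w ∧
      ∀ κ : Cx.{u}, ¬ (H (ec κ)).Adj v w) = ∅ := by
    intro v hv
    rw [mem_OV] at hv
    rw [filter_eq_empty_iff]
    rintro w hw ⟨h1, h2⟩
    rw [mem_nb] at hw
    obtain ⟨j, hj⟩ := T.uL v w ⟨⟨hw, h1⟩, fun h3 => hv ((hN v).1 h3.1)⟩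
    obtain ⟨κ, rfl⟩ := ec_surj.{u} j
    exact h2 κ hj
  refine ⟨?_, ?_, ?_, ?_, ?_, ?_, ?_, ?_, ?_, ?_, ?_, ?_⟩
  · -- HG
    intro κ v w hvw
    rw [hBk]
    exact T.HG _ v w hvw
  · -- dis
    intro κ κ' v w hne hvw
    exact T.dis _ _ v w (fun h' => hne (ec_inj h')) hvw
  · -- typ
    intro κ v w hvw
    by_cases hO : InO X v
    · exact Or.inl hO
    · right
      obtain ⟨b, hb⟩ := blx_ex h.P hO
      have h1 := (al_iff th pt hb κ).1 (T.typ _ v w hvw)
      have h2 := (ndx_iff (X := X) th pt sd κ v _ _ _).2 ⟨hO, h1, rfl, rfl, rfl⟩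
      intro h3
      rw [h2] at h3
      exact absurd h3 (by simp)
  · -- ExO
    intro κ v hv
    have h1 := T.ExO _ hv
    rw [mem_OO] at h1
    exact mem_OV.2 ((hN v).1 h1)
  · -- deg
    intro κ v hv hv'
    have h1 := T.deg (ec κ) v ((hN v).2 (mem_OV.1 hv)) hv'
    rw [D6_ec] at h1
    exact h1
  · -- dex
    intro κ v hv
    have h1 := T.dex (ec κ) v hv
    rw [D6_ec] at h1
    exact h1
  · -- exc
    intro κ v
    have h1 := T.exc (ec κ) v
    rw [D6_ec] at h1
    exact h1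
  · -- bal
    rintro κ ⟨n, l⟩
    have h0 : (0 : ℝ) ≤ ρ * D κ := by positivity
    have hz : (∀ v, ¬ InO X v → ¬ fbd X th pt κ v → X.P.pc v = n → pt' X pt v = l → False) →
        |sdg (H (ec κ)) (ndx (rlb X th pt sd) κ) ⟨(n, l)⟩| ≤ ρ * D κ := by
      intro hE
      unfold sdg
      rw [nsd_empty X th pt sd κ n l false hE, nsd_empty X th pt sd κ n l true hE]
      simpa using h0
    by_cases hE : X.P.ty n = Ty.E
    · refine hz fun v h1 h2 h3 h4 => ?_
      have h5 := ty_ne h.P (v := v) fun h' => h1 (Or.inl h')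
      rw [h3] at h5
      exact h5 hE
    · by_cases hK : X.P.ty n = Ty.K → l = false
      · have hb : ∃ b : BX X, b.down.1.1 = n := ⟨mkB X n false hE (Or.inr rfl), rfl⟩
        obtain ⟨b, hb⟩ := hb
        have h1 := T.bal (ec κ) ((datX G d X).rp b, if l then 1 else 0)
        rw [D6_ec] at h1
        unfold sdg at h1 ⊢
        rw [nd_eq h.P th pt sd κ n l false b hb hK, nd_eq h.P th pt sd κ n l true b hb hK]
        exact h1
      · push Not at hK
        refine hz fun v h1 h2 h3 h4 => ?_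
        unfold pt' at h4
        rw [h3, hK.1] at h4
        simp only [reduceCtorEq, or_self, if_false] at h4
        exact hK.2 h4.symm
  · -- shr
    intro κ
    refine shr_map (T.shr (ec κ)) hBk (blx_rlb X th pt sd) ?_
    rintro ⟨⟨n, l⟩, s⟩ b hp
    exact shr_aux h.P th pt sd κ n l s b hp
  · -- uO
    intro v hv
    have h1 := T.uO v ((hN v).2 (mem_OV.1 hv))
    refine le_trans ?_ hCC
    refine le_trans (Nat.cast_le.2 (le_trans (card_le_card fun w hw => ?_) h1)) (by norm_num)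
    rw [mem_filter, mem_inter] at hw
    rw [mem_filter]
    refine ⟨?_, fun j hj => ?_⟩
    · rw [mem_nb]
      exact ⟨mem_nb.1 hw.1.1, (hN v).2 (mem_OV.1 hv), (hN w).2 (mem_OV.1 hw.1.2)⟩
    · obtain ⟨κ, rfl⟩ := ec_surj.{u} j
      exact hw.2 κ hj
  · -- uL
    intro v hv
    rw [hBk, hZ v hv]
    simp only [card_empty, Nat.cast_zero]
    positivity
  · -- uS
    intro n
    rw [hBk]
    have h1 : ∀ v ∈ (pV (rlb X th pt sd).P n).filter (fun v => v ∉ OV (rlb X th pt sd)),
        ((nb G v).filter fun w => ¬ (Bkx G X).Adj v w ∧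
          ∀ κ : Cx.{u}, ¬ (H (ec κ)).Adj v w).card = 0 := by
      intro v hv
      rw [mem_filter] at hv
      rw [hZ v hv.2]
      rfl
    rw [sum_congr rfl h1]
    simp only [sum_const_zero, Nat.cast_zero]
    positivity

end Pool.Agent.Work.MP_db9399_trn.helper79
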